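import Pool.Agent.Helper77.SND.Stmts

set_option autoImplicit false

namespace Pool.Agent.Helper77.SND

open Classical in
/-- the new incidence map -/
noncomputable def hs_lam {E L K E' L' : Type} (lam : E → K → L) (π : L → ℕ) (i : ℕ)
    (lam' : E' → {l : L // π l = i} → L') :
    E' × E → K → L' ⊕ (E' × {l : L // π l ≠ i}) :=
  fun p k => if h : π (lam p.2 k) = i then Sum.inl (lam' p.1 ⟨lam p.2 k, h⟩)
    else Sum.inr (p.1, ⟨lam p.2 k, h⟩)

theorem hs_lam_pos {E L K E' L' : Type} (lam : E → K → L) (π : L → ℕ) (i : ℕ)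
    (lam' : E' → {l : L // π l = i} → L') (p : E' × E) (k : K) (h : π (lam p.2 k) = i) :
    hs_lam lam π i lam' p k = Sum.inl (lam' p.1 ⟨lam p.2 k, h⟩) := by
  unfold hs_lam
  rw [dif_pos h]

theorem hs_lam_neg {E L K E' L' : Type} (lam : E → K → L) (π : L → ℕ) (i : ℕ)
    (lam' : E' → {l : L // π l = i} → L') (p : E' × E) (k : K) (h : π (lam p.2 k) ≠ i) :
    hs_lam lam π i lam' p k = Sum.inr (p.1, ⟨lam p.2 k, h⟩) := by
  unfold hs_lam
  rw [dif_neg h]

theorem hs_eq1 {E L K E' L' : Type} (lam : E → K → L) (π : L → ℕ) (i : ℕ)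
    (lam' : E' → {l : L // π l = i} → L') (hinj' : ∀ α, Function.Injective (lam' α))
    (p q : E' × E) (k l : K) (hpq : p.1 = q.1)
    (h : hs_lam lam π i lam' p k = hs_lam lam π i lam' q l) : lam p.2 k = lam q.2 l := by
  by_cases h1 : π (lam p.2 k) = i
  · by_cases h2 : π (lam q.2 l) = i
    · rw [hs_lam_pos lam π i lam' p k h1, hs_lam_pos lam π i lam' q l h2, hpq] at h
      have h3 := hinj' q.1 (Sum.inl_injective h)
      exact congrArg Subtype.val h3
    · rw [hs_lam_pos lam π i lam' p k h1, hs_lam_neg lam π i lam' q l h2] at h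
      exact absurd h (by simp)
  · by_cases h2 : π (lam q.2 l) = i
    · rw [hs_lam_neg lam π i lam' p k h1, hs_lam_pos lam π i lam' q l h2] at h
      exact absurd h (by simp)
    · rw [hs_lam_neg lam π i lam' p k h1, hs_lam_neg lam π i lam' q l h2] at h
      have h3 := Sum.inr_injective h
      have h4 := congrArg Prod.snd h3
      exact congrArg Subtype.val h4

theorem hs_eq2 {E L K E' L' : Type} (lam : E → K → L) (π : L → ℕ) (i : ℕ)
    (lam' : E' → {l : L // π l = i} → L')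
    (p q : E' × E) (k l : K) (hpq : q.1 ≠ p.1)
    (h : hs_lam lam π i lam' p k = hs_lam lam π i lam' q l) :
    ∃ (h1 : π (lam p.2 k) = i) (y : {l : L // π l = i}),
      lam' p.1 ⟨lam p.2 k, h1⟩ = lam' q.1 y := by
  by_cases h1 : π (lam p.2 k) = i
  · by_cases h2 : π (lam q.2 l) = i
    · rw [hs_lam_pos lam π i lam' p k h1, hs_lam_pos lam π i lam' q l h2] at h
      exact ⟨h1, ⟨lam q.2 l, h2⟩, Sum.inl_injective h⟩
    · rw [hs_lam_pos lam π i lam' p k h1, hs_lam_neg lam π i lam' q l h2] at h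
      exact absurd h (by simp)
  · by_cases h2 : π (lam q.2 l) = i
    · rw [hs_lam_neg lam π i lam' p k h1, hs_lam_pos lam π i lam' q l h2] at h
      exact absurd h (by simp)
    · rw [hs_lam_neg lam π i lam' p k h1, hs_lam_neg lam π i lam' q l h2] at h
      have h3 := Sum.inr_injective h
      exact absurd (congrArg Prod.fst h3).symm hpq

/-- the member `α` has at most one shared point in `F` -/
def hsGood {E K L : Type} (lam : E → K → L) (F : Finset E) (α : E) : Prop :=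
  ∀ β ∈ F, ∀ β' ∈ F, β ≠ α → β' ≠ α →
    ∀ k k' l l' : K, lam α k = lam β l → lam α k' = lam β' l' → k = k'

theorem hs_key {E L K E' L' : Type} (lam : E → K → L) (π : L → ℕ) (i : ℕ)
    (lam' : E' → {l : L // π l = i} → L') (hinj' : ∀ α, Function.Injective (lam' α))
    (hinj : ∀ α, Function.Injective fun k => π (lam α k))
    (F : Finset (E' × E)) (A : Finset E') (hA : ∀ p ∈ F, p.1 ∈ A) (α : E')
    (hα : hsGood lam' A α) (Fα : Finset E) (hFα : ∀ p ∈ F, p.1 = α → p.2 ∈ Fα)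
    (e : E) (he : hsGood lam Fα e)
    (hbad : ¬ hsGood (hs_lam lam π i lam') F (α, e)) :
    ∃ k : K, (∃ (h : π (lam e k) = i), ∃ β ∈ A, β ≠ α ∧ ∃ y, lam' α ⟨lam e k, h⟩ = lam' β y) ∧
      ¬ ∃ f ∈ Fα, f ≠ e ∧ ∃ l, lam e k = lam f l := by
  have hin : ∀ k k', (∃ f ∈ Fα, f ≠ e ∧ ∃ l, lam e k = lam f l) →
      (∃ f ∈ Fα, f ≠ e ∧ ∃ l, lam e k' = lam f l) → k = k' := by
    rintro k k' ⟨f, hf, hfe, l, hl⟩ ⟨f', hf', hfe', l', hl'⟩
    exact he f hf f' hf' hfe hfe' k k' l l' hl hl'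
  have hout : ∀ k k', (∃ (h : π (lam e k) = i), ∃ β ∈ A, β ≠ α ∧
      ∃ y, lam' α ⟨lam e k, h⟩ = lam' β y) →
      (∃ (h : π (lam e k') = i), ∃ β ∈ A, β ≠ α ∧
      ∃ y, lam' α ⟨lam e k', h⟩ = lam' β y) → k = k' := by
    rintro k k' ⟨h, β, hβ, hβα, y, hy⟩ ⟨h', β', hβ', hβα', y', hy'⟩
    have h1 := hα β hβ β' hβ' hβα hβα' _ _ _ _ hy hy'
    have h2 : lam e k = lam e k' := congrArg Subtype.val h1
    exact hinj e (congrArg π h2)
  have hsh : ∀ q ∈ F, q ≠ (α, e) → ∀ k l : K,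
      hs_lam lam π i lam' (α, e) k = hs_lam lam π i lam' q l →
      (∃ f ∈ Fα, f ≠ e ∧ ∃ l, lam e k = lam f l) ∨
      (∃ (h : π (lam e k) = i), ∃ β ∈ A, β ≠ α ∧
      ∃ y, lam' α ⟨lam e k, h⟩ = lam' β y) := by
    intro q hq hqe k l h
    by_cases hq1 : q.1 = α
    · left
      refine ⟨q.2, hFα q hq hq1, ?_, l, ?_⟩
      · intro h2
        exact hqe (Prod.ext hq1 h2)
      · exact hs_eq1 lam π i lam' hinj' (α, e) q k l hq1.symm h
    · right
      obtain ⟨h1, y, hy⟩ := hs_eq2 lam π i lam' (α, e) q k l hq1 h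
      exact ⟨h1, q.1, hA q hq, hq1, y, hy⟩
  unfold hsGood at hbad
  push Not at hbad
  obtain ⟨q, hq, q', hq', hqe, hqe', k, k', l, l', h1, h2, hkk⟩ := hbad
  rcases hsh q hq hqe k l h1 with hi | ho
  · rcases hsh q' hq' hqe' k' l' h2 with hi' | ho'
    · exact absurd (hin k k' hi hi') hkk
    · exact ⟨k', ho', fun hi' => hkk (hin k k' hi hi')⟩
  · rcases hsh q' hq' hqe' k' l' h2 with hi' | ho'
    · exact ⟨k, ho, fun hi => hkk (hin k k' hi hi')⟩
    · exact absurd (hout k k' ho ho') hkk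

open Classical in
theorem hs_sparse (hTWO : ST_TWO) {E L K E' L' : Type} (lam : E → K → L) (π : L → ℕ) (i r : ℕ)
    (hr : 1 ≤ r)
    (lam' : E' → {l : L // π l = i} → L') (hinj' : ∀ α, Function.Injective (lam' α))
    (hinj : ∀ α, Function.Injective fun k => π (lam α k))
    (hsp : Sparse (r + 1) lam) (hsp' : Sparse r lam') :
    Sparse (r + 1) (hs_lam lam π i lam') := by
  intro F hF hFr
  have hinj0 : ∀ α, Function.Injective (lam α) := by
    intro α k k' h
    exact hinj α (congrArg π h)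
  -- the fibres
  set Fib : E' → Finset E := fun α => (F.filter (fun p => p.1 = α)).image Prod.snd with hFib
  have hmem : ∀ α e, e ∈ Fib α ↔ (α, e) ∈ F := by
    intro α e
    simp only [hFib, Finset.mem_image, Finset.mem_filter]
    constructor
    · rintro ⟨p, ⟨hp, h1⟩, h2⟩
      have h3 : p = (α, e) := Prod.ext h1 h2
      rw [← h3]
      exact hp
    · intro h
      exact ⟨(α, e), ⟨h, rfl⟩, rfl⟩
  have hcardF : ∀ α, (Fib α).card = (F.filter (fun p => p.1 = α)).card := by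
    intro α
    apply Finset.card_image_of_injOn
    intro p hp q hq h
    have hp1 : p.1 = α := (Finset.mem_filter.mp hp).2
    have hq1 : q.1 = α := (Finset.mem_filter.mp hq).2
    exact Prod.ext (hp1.trans hq1.symm) h
  have hle : ∀ α, (Fib α).card ≤ F.card := by
    intro α
    rw [hcardF α]
    exact Finset.card_filter_le _ _
  change ∃ α ∈ F, hsGood (hs_lam lam π i lam') F α
  by_cases hA1 : ∃ α, ∀ p ∈ F, p.1 = α
  · obtain ⟨α, hα⟩ := hA1
    obtain ⟨p0, hp0⟩ := hF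
    have hne : (Fib α).Nonempty := by
      refine ⟨p0.2, (hmem α p0.2).mpr ?_⟩
      rw [← hα p0 hp0]
      exact hp0
    obtain ⟨e, heF, he⟩ := hsp (Fib α) hne ((hle α).trans hFr)
    refine ⟨(α, e), (hmem α e).mp heF, ?_⟩
    intro q hq q' hq' hqe hqe' k k' l l' h1 h2
    have hq1 := hα q hq
    have hq1' := hα q' hq'
    have e1 := hs_eq1 lam π i lam' hinj' (α, e) q k l hq1.symm h1
    have e2 := hs_eq1 lam π i lam' hinj' (α, e) q' k' l' hq1'.symm h2
    refine he q.2 ((hmem α q.2).mpr ?_) q'.2 ((hmem α q'.2).mpr ?_) ?_ ?_ k k' l l' e1 e2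
    · rw [← hq1]
      exact hq
    · rw [← hq1']
      exact hq'
    · intro h
      exact hqe (Prod.ext hq1 h)
    · intro h
      exact hqe' (Prod.ext hq1' h)
  by_cases hB1 : ∃ p ∈ F, ∀ q ∈ F, q.1 = p.1 → q = p
  · obtain ⟨p, hp, hpu⟩ := hB1
    refine ⟨p, hp, ?_⟩
    intro q hq q' hq' hqe hqe' k k' l l' h1 h2
    have hq1 : q.1 ≠ p.1 := fun h => hqe (hpu q hq h)
    have hq1' : q'.1 ≠ p.1 := fun h => hqe' (hpu q' hq' h)
    obtain ⟨g1, -, -⟩ := hs_eq2 lam π i lam' p q k l hq1 h1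
    obtain ⟨g2, -, -⟩ := hs_eq2 lam π i lam' p q' k' l' hq1' h2
    exact hinj p.2 (g1.trans g2.symm)
  push Not at hB1
  -- every fibre has at least two elements
  set A : Finset E' := F.image Prod.fst with hA
  have hfib2 : ∀ α ∈ A, 2 ≤ (F.filter (fun p => p.1 = α)).card := by
    intro α hα
    obtain ⟨p, hp, hpα⟩ := Finset.mem_image.mp hα
    obtain ⟨q, hq, hq1, hqp⟩ := hB1 p hp
    have h2 : 1 < (F.filter (fun p => p.1 = α)).card := by
      rw [Finset.one_lt_card]
      exact ⟨p, Finset.mem_filter.mpr ⟨hp, hpα⟩, q,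
        Finset.mem_filter.mpr ⟨hq, hq1.trans hpα⟩, fun h => hqp h.symm⟩
    exact h2
  have hAcard : 2 * A.card ≤ F.card := by
    rw [Finset.card_eq_sum_card_image Prod.fst F]
    calc 2 * A.card = ∑ _b ∈ A, 2 := by rw [Finset.sum_const, smul_eq_mul, mul_comm]
      _ ≤ ∑ b ∈ A, (F.filter (fun x => x.1 = b)).card := Finset.sum_le_sum hfib2
  have hAne : A.Nonempty := hF.image _
  have hAr : A.card ≤ r := by
    omega
  obtain ⟨α, hαA, hαg⟩ := hsp' A hAne hAr
  have hFα2 : 2 ≤ (Fib α).card := by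
    rw [hcardF α]
    exact hfib2 α hαA
  obtain ⟨e1, he1, e2, he2, hne, hg⟩ := hTWO E K L (r + 1) lam hinj0 hsp (Fib α) hFα2
    ((hle α).trans hFr)
  by_contra hcon
  push Not at hcon
  have hb1 := hcon (α, e1) ((hmem α e1).mp he1)
  have hb2 := hcon (α, e2) ((hmem α e2).mp he2)
  have hAm : ∀ p ∈ F, p.1 ∈ A := fun p hp => Finset.mem_image_of_mem _ hp
  have hFm : ∀ p ∈ F, p.1 = α → p.2 ∈ Fib α := by
    intro p hp h
    rw [hmem]
    rw [← h]
    exact hp
  obtain ⟨k1, ⟨h1, β1, hβ1, hβα1, y1, hy1⟩, hn1⟩ := hs_key lam π i lam' hinj' hinj F A hAm α hαg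
    (Fib α) hFm e1 (hg e1 (Or.inl rfl)) hb1
  obtain ⟨k2, ⟨h2, β2, hβ2, hβα2, y2, hy2⟩, hn2⟩ := hs_key lam π i lam' hinj' hinj F A hAm α hαg
    (Fib α) hFm e2 (hg e2 (Or.inr rfl)) hb2
  have h3 := hαg β1 hβ1 β2 hβ2 hβα1 hβα2 _ _ _ _ hy1 hy2
  have h4 : lam e1 k1 = lam e2 k2 := congrArg Subtype.val h3
  exact hn1 ⟨e2, he2, fun h => hne h.symm, k2, h4⟩

open Classical in
theorem st_HS (hTWO : ST_TWO) : ST_HS := by
  intro K _ r a i hr hHYP hSys
  obtain ⟨E, L, hE, hL, lam, π, hπa, hinj, hsp, hcol⟩ := hSys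
  by_cases hia : i < a
  swap
  · refine ⟨E, L, hE, hL, lam, π, hπa, hinj, hsp, ?_⟩
    intro χ hχ
    apply hcol χ
    intro l l' hll hil
    exfalso
    have := hπa l
    omega
  obtain ⟨E', L', hE', hL', lam', hinj', hsp', hcol'⟩ := hHYP {l : L // π l = i}
  have hπ : ∀ (p : E' × E) (k : K),
      Sum.elim (fun _ => i) (fun q : E' × {l : L // π l ≠ i} => π q.2.1)
        (hs_lam lam π i lam' p k) = π (lam p.2 k) := by
    intro p k
    by_cases h : π (lam p.2 k) = i
    · rw [hs_lam_pos lam π i lam' p k h]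
      simp [h]
    · rw [hs_lam_neg lam π i lam' p k h]
      simp
  refine ⟨E' × E, L' ⊕ (E' × {l : L // π l ≠ i}), inferInstance, inferInstance,
    hs_lam lam π i lam', Sum.elim (fun _ => i) (fun q => π q.2.1), ?_, ?_, ?_, ?_⟩
  · intro l
    rcases l with l | ⟨e, l⟩
    · simpa using hia
    · simpa using hπa l.1
  · intro p k k' h
    have h' : Sum.elim (fun _ => i) (fun q : E' × {l : L // π l ≠ i} => π q.2.1)
        (hs_lam lam π i lam' p k) =
        Sum.elim (fun _ => i) (fun q : E' × {l : L // π l ≠ i} => π q.2.1)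
        (hs_lam lam π i lam' p k') := h
    rw [hπ p k, hπ p k'] at h'
    exact hinj p.2 h'
  · exact hs_sparse hTWO lam π i r hr lam' hinj' hinj hsp hsp'
  · intro χ hχ
    obtain ⟨α, hα⟩ := hcol' (fun l => χ (Sum.inl l))
    obtain ⟨e, he⟩ := hcol (fun l => if h : π l = i then χ (Sum.inl (lam' α ⟨l, h⟩))
      else χ (Sum.inr (α, ⟨l, h⟩))) (by
        intro l l' hll hil
        by_cases h : π l = i
        · have h' : π l' = i := hll ▸ h
          simp only [dif_pos h, dif_pos h']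
          exact hα ⟨l, h⟩ ⟨l', h'⟩
        · have h' : π l' ≠ i := hll ▸ h
          simp only [dif_neg h, dif_neg h']
          apply hχ
          · simpa using hll
          · simp only [Sum.elim_inr]
            omega)
    refine ⟨(α, e), ?_⟩
    have hval : ∀ k, χ (hs_lam lam π i lam' (α, e) k) =
        (if h : π (lam e k) = i then χ (Sum.inl (lam' α ⟨lam e k, h⟩))
          else χ (Sum.inr (α, ⟨lam e k, h⟩))) := by
      intro k
      by_cases h : π (lam e k) = i
      · rw [hs_lam_pos lam π i lam' (α, e) k h, dif_pos h]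
      · rw [hs_lam_neg lam π i lam' (α, e) k h, dif_neg h]
    intro k k'
    rw [hval k, hval k']
    exact he k k'

end Pool.Agent.Helper77.SND
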